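import Pool.Agent.H520Z.Sel.Big

set_option autoImplicit false

namespace Pool.Agent.Results.MP_8e9775_nt.APrimitive

open Pool.Agent.H520Z.Sel Filter

/-- There is a primitive element of the Selberg class for which `S_F(x) - log log x` is unbounded
as `x → ∞`; indeed `S_F(x)` is not `O(log log x)`. -/
theorem result : ∃ a : ℕ → ℂ, IsPrim a ∧
    (¬ ∃ C : ℝ, ∀ᶠ x : ℝ in atTop,
      |(∑ p ∈ (Finset.Iic ⌊x⌋₊).filter Nat.Prime, ‖a p‖ ^ 2 / (p : ℝ)) -
        Real.log (Real.log x)| ≤ C) ∧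
    ∀ K : ℝ, ∃ᶠ x : ℝ in atTop, K * Real.log (Real.log x) <
      ∑ p ∈ (Finset.Iic ⌊x⌋₊).filter Nat.Prime, ‖a p‖ ^ 2 / (p : ℝ) := by
  obtain ⟨a, ha, hbig⟩ := exists_prim_big
  have hc := tendsto_natCast_atTop_atTop (R := ℝ)
  refine ⟨a, ha, ?_, fun K => ?_⟩
  · rintro ⟨C, hC⟩
    refine hbig ⟨1, C, ?_⟩
    filter_upwards [hc.eventually hC] with N hN
    rw [Nat.floor_natCast] at hN
    have := (abs_le.1 hN).2
    linarith
  · by_contra h
    rw [not_frequently] at h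
    refine hbig ⟨K, 0, ?_⟩
    filter_upwards [hc.eventually h] with N hN
    rw [Nat.floor_natCast] at hN
    linarith [not_lt.1 hN]

end Pool.Agent.Results.MP_8e9775_nt.APrimitive
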